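import Pool.Agent.H93.CP.Targets

/-!
Row GCL of the board cpt_modules.
-/

set_option autoImplicit false

open Set Filter Topology

namespace Pool.Agent.H34.CP

open Pool.Agent.H93.CP

theorem pf_GCL (hHTG : T_HTG) (hHPO : T_HPO) (hPCO : T_PCO) (hPBD : T_PBD) : T_GCL := by
  intro G X _ _ _ _ _ _ Y
  obtain ⟨c1, c2, c3, -, -, -⟩ := hPCO G Y.S
  obtain ⟨b1, -, -⟩ := hPBD G Y.S
  obtain ⟨t1, t2, t3⟩ := hHTG Y.S.Path G
  have pol : PolishSpace (HC Y.S.Path G) := hHPO Y.S.Path G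
  refine IsSeqClosed.isClosed ?_
  intro γn γ hγn hγ
  have h1 : ∀ y, Tendsto (fun n => (γn n).h y) atTop (𝓝 (γ.h y)) := by
    intro y
    have := (t2.tendsto (γ, y)).comp (hγ.prodMk_nhds tendsto_const_nhds)
    exact this
  have h2 : ∀ y, Tendsto (fun n => (γn n).h.symm y) atTop (𝓝 (γ.h.symm y)) := by
    intro y
    have h3 : Tendsto (fun n => (γn n)⁻¹) atTop (𝓝 γ⁻¹) := (continuous_inv.tendsto γ).comp hγ
    have := (t2.tendsto (γ⁻¹, y)).comp (h3.prodMk_nhds tendsto_const_nhds)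
    exact this
  have h4 : ∀ y, Tendsto (fun n => (γn n).c y) atTop (𝓝 (γ.c y)) := fun y =>
    ((t3 y).tendsto γ).comp hγ
  have h5 : ∀ l y, Y.S.Bdd l (γ.h y) ↔ Y.S.Bdd l y := by
    intro l y
    constructor
    · intro h
      have h6 : ∀ n, Y.S.Bdd l ((γn n).h.symm (γ.h y)) := by
        intro n
        have h7 := (hγn n).1 l ((γn n).h.symm (γ.h y))
        rw [Homeomorph.apply_symm_apply] at h7
        exact h7.mp h
      have h8 := (b1 l).mem_of_tendsto (h2 (γ.h y)) (Eventually.of_forall h6)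
      have h9 : Y.S.Bdd l (γ.h.symm (γ.h y)) := h8
      rwa [Homeomorph.symm_apply_apply] at h9
    · intro h
      have h6 : ∀ n, Y.S.Bdd l ((γn n).h y) := fun n => ((hγn n).1 l y).mpr h
      exact (b1 l).mem_of_tendsto (h1 y) (Eventually.of_forall h6)
  have h10 : ∀ γ' : HC Y.S.Path G, (∀ l y, Y.S.Bdd l (γ'.h y) ↔ Y.S.Bdd l y) → ∀ y, Y.S.Inf y →
      Y.S.Inf (γ'.h y) := fun γ' h y hy l hl => hy l ((h l y).1 hl)
  exact ⟨h5, fun y hy => Y.cl y (γ.h y) (fun n => (γn n).h y) (γ.c y) (fun n => (γn n).c y) hy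
    (h10 γ h5 y hy) (fun n => h10 (γn n) (hγn n).1 y hy) (h1 y) (h4 y)
    (fun n => (hγn n).2 y hy)⟩

end Pool.Agent.H34.CP
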