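import Pool.Agent.H7.CP.Targets

/-!
# MAT: the family of atoms for points of cofinality `M`
-/

open Ordinal Cardinal Order Set
open scoped ZFSet

universe u

namespace Pool.Agent.H34.CP.MAT

open _root_.HD

theorem po (M K : Cardinal.{u}) (hK : K.IsRegular) (hK0 : ℵ₀ < K) :
    PO K.ord (Pos M.ord K.ord) := by
  have hcof : ℵ₀ < K.ord.cof := by rw [hK.cof_ord]; exact hK0
  refine ⟨fun X Y hX hXY => Pos.mono hX fun b hb hbX _ => hXY b hb hbX, ?_,
    fun τ hτ X hX => All.va _ K.ord hcof τ hτ X hX, ?_⟩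
  · intro X hX
    have hC : Clb K.ord (univ : Set Ordinal.{u}) :=
      ⟨fun a ha => ⟨succ a, (Cardinal.isSuccLimit_ord hK.aleph0_le).succ_lt ha, lt_succ a, trivial⟩,
        fun _ _ _ _ => trivial⟩
    obtain ⟨b, hb, -, hbX, -⟩ := hX univ hC
    exact ⟨b, hb, hbX⟩
  · intro Y hY
    have h1 := All.da 0 1 (fun a w => Y a (fun n => w (n + 2)))
      ((hY.ren fun n => if n = 0 then 0 else n + 2).congr fun w => by simp)
    have h2 := DO.sub (R := fun μ w => Pos μ (w 0) {a | Y a (fun n => w (n + 1))}) M.ord h1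
    exact DO.sub (R := fun κ w => Pos M.ord κ {a | Y a w}) K.ord h2

theorem X : T_MAT.{u} := by
  intro en hen D K M hB hK hDK hM hMD
  have hcofK : K.ord.cof = K := hK.cof_ord
  have hDc : D < K.ord.cof := by rw [hcofK]; exact hDK
  obtain ⟨I, -, hFew, hI, hnull⟩ := All.cvr en hen D K.ord (Pos M.ord K.ord)
    (po M K hK (hB.dunc.trans hDK)) hB.dreg hB.dunc hDc
    (fun s hs hdis => hB.ns M hM hMD K.ord hDc s hs hdis)
    (fun X hX hP => by
      obtain ⟨c, hc, hA⟩ := hB.atm en hen M hM hMD K.ord hDc X hX hP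
      exact ⟨c, hc, hA.pos, hA.ult⟩)
  have hIne : ∃ c, c ∈ I := by
    by_contra h
    push Not at h
    refine hnull (Pos.mono (All.vc M K.ord hM (hMD.trans hDc)) fun b _ _ _ => ?_)
    intro c hc
    exact absurd hc (h c)
  obtain ⟨c₀, hc₀⟩ := hIne
  obtain ⟨τ, hτ, e, he⟩ := hFew
  classical
  refine ⟨fun i => if i < τ ∧ e i ∈ I then e i else c₀, ?_, ?_⟩
  · intro i _
    have h1 : (if i < τ ∧ e i ∈ I then e i else c₀) ∈ I := by
      split_ifs with h
      · exact h.2
      · exact hc₀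
    exact ⟨(hI _ h1).1, (hI _ h1).2⟩
  · intro hP
    refine hnull (Pos.mono hP fun b _ hb _ => ?_)
    intro c hc
    obtain ⟨a, ha, hac⟩ := he c hc
    have h1 : b ∉ E en (if a < τ ∧ e a ∈ I then e a else c₀) := hb a (ha.trans hτ)
    have h2 : (if a < τ ∧ e a ∈ I then e a else c₀) = c := by
      rw [if_pos ⟨ha, by rw [hac]; exact hc⟩, hac]
    rw [h2] at h1
    exact h1

end Pool.Agent.H34.CP.MAT
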