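import Pool.Agent.H93.CP.Targets

/-!
Row PBD of the board cpt_modules.
-/

set_option autoImplicit false

open Set Filter Topology

namespace Pool.Agent.H34.CP

open Pool.Agent.H93.CP

theorem clopen_mem {G : Type} (S : Gr G) (w : List S.E) : IsClopen {y : S.Path | S.Mem w y} := by
  have h5 : Continuous (fun y : {y : List S.E → Bool // S.IsPath y} => y.1 w) :=
    (continuous_apply w).comp continuous_subtype_val
  exact (isClopen_discrete ({true} : Set Bool)).preimage h5

theorem closed_bdd {G : Type} (S : Gr G) (l : ℕ) : IsClosed {y : S.Path | S.Bdd l y} := by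
  have h : {y : S.Path | S.Bdd l y} =
      ⋂ w : List S.E, {y : S.Path | S.Mem w y → S.lev (S.fin S.root w) ≤ l} := by
    ext y
    simp only [mem_ofPred_eq, mem_iInter]
    rfl
  rw [h]
  refine isClosed_iInter fun w => ?_
  by_cases hw : S.lev (S.fin S.root w) ≤ l
  · have : {y : S.Path | S.Mem w y → S.lev (S.fin S.root w) ≤ l} = univ := by
      ext y
      simp only [mem_ofPred_eq, mem_univ, iff_true]
      exact fun _ => hw
    rw [this]
    exact isClosed_univ
  · have : {y : S.Path | S.Mem w y → S.lev (S.fin S.root w) ≤ l} = {y : S.Path | S.Mem w y}ᶜ := by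
      ext y
      simp only [mem_ofPred_eq, mem_compl_iff]
      exact ⟨fun h1 h2 => hw (h1 h2), fun h1 h2 => absurd h2 h1⟩
    rw [this]
    exact (clopen_mem S w).compl.isClosed

theorem countable_fin {G : Type} (hPWD : T_PWD) (S : Gr G) :
    {y : S.Path | ¬ S.Inf y}.Countable := by
  obtain ⟨-, h2, h3, -⟩ := hPWD G S
  have := S.cE
  have hsub : {y : S.Path | ¬ S.Inf y} ⊆
      ⋃ w : List S.E, {y : S.Path | ∀ u, S.Mem u y ↔ u <+: w} := by
    intro y hy
    have hy' : ¬ S.Inf y := hy
    rw [h3 y] at hy'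
    push Not at hy'
    obtain ⟨n, hn⟩ := hy'
    have hlt : ∀ w, S.Mem w y → w.length < n := by
      intro w hw
      by_contra hc
      refine hn (w.take n) (y.2.pre _ _ (List.take_prefix n w) hw) ?_
      rw [List.length_take]
      omega
    have hex : ∃ k, ∃ w, S.Mem w y ∧ w.length = k := ⟨0, [], y.2.nil, rfl⟩
    obtain ⟨w0, hw0, hmax⟩ : ∃ w0, S.Mem w0 y ∧ ∀ w, S.Mem w y → w.length ≤ w0.length := by
      classical
      have hb : ∀ k, (∃ w, S.Mem w y ∧ w.length = k) → k ≤ n := by
        rintro k ⟨w, hw, rfl⟩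
        exact (hlt w hw).le
      obtain ⟨w0, hw0, hl⟩ := Nat.findGreatest_spec (P := fun k => ∃ w, S.Mem w y ∧ w.length = k)
        (Nat.zero_le n) ⟨[], y.2.nil, rfl⟩
      refine ⟨w0, hw0, fun w hw => ?_⟩
      rw [hl]
      exact Nat.le_findGreatest (hb _ ⟨w, hw, rfl⟩) ⟨w, hw, rfl⟩
    rw [mem_iUnion]
    refine ⟨w0, fun u => ⟨fun hu => h2 y u w0 hu hw0 (hmax u hu), fun hu => y.2.pre u w0 hu hw0⟩⟩
  refine Set.Countable.mono hsub (Set.countable_iUnion fun w => Set.Subsingleton.countable ?_)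
  intro y hy z hz
  apply Subtype.ext
  funext u
  have h4 : (y.1 u = true) ↔ (z.1 u = true) := (hy u).trans (hz u).symm
  exact Bool.eq_iff_iff.mpr h4

theorem pf_PBD (hPWD : T_PWD) : T_PBD := by
  intro G S
  refine ⟨closed_bdd S, countable_fin hPWD S, ?_⟩
  let _ : MeasurableSpace S.Path := borel _
  have : BorelSpace S.Path := ⟨rfl⟩
  have h : {y : S.Path | S.Inf y} = ⋂ l : ℕ, {y : S.Path | S.Bdd l y}ᶜ := by
    ext y
    simp only [mem_ofPred_eq, mem_iInter, mem_compl_iff]
    rfl
  rw [h]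
  exact MeasurableSet.iInter fun l => (closed_bdd S l).measurableSet.compl

end Pool.Agent.H34.CP
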