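import Pool.Agent.H93.CP.Targets

/-!
Row PCO of the board cpt_modules.
-/

set_option autoImplicit false

open Set Filter Topology

namespace Pool.Agent.H34.CP

open Pool.Agent.H93.CP

theorem clopen_apply {ι : Type} (w : ι) : IsClopen {y : ι → Bool | y w = true} :=
  (isClopen_discrete ({true} : Set Bool)).preimage (continuous_apply w)

theorem closed_imp {X : Type} [TopologicalSpace X] {p q : X → Prop} (hp : IsClopen {x | p x})
    (hq : IsClosed {x | q x}) : IsClosed {x | p x → q x} := by
  have h : {x | p x → q x} = {x | p x}ᶜ ∪ {x | q x} := by
    ext x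
    simp only [mem_ofPred_eq, mem_union, mem_compl_iff]
    tauto
  rw [h]
  exact hp.compl.isClosed.union hq

theorem closed_path {G : Type} (S : Gr G) : IsClosed {y : List S.E → Bool | S.IsPath y} := by
  have h : {y : List S.E → Bool | S.IsPath y} = {y | y [] = true} ∩
      ((⋂ u : List S.E, ⋂ w : List S.E, ⋂ _ : u <+: w, {y | y w = true → y u = true}) ∩
      ((⋂ w : List S.E, {y | y w = true → S.Leg S.root w}) ∩
      (⋂ u : List S.E, ⋂ w : List S.E, {y | y u = true → (y w = true → u <+: w ∨ w <+: u)}))) := by
    ext y
    simp only [mem_ofPred_eq, mem_inter_iff, mem_iInter]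
    exact ⟨fun h => ⟨h.nil, h.pre, h.leg, h.lin⟩, fun h => ⟨h.1, h.2.1, h.2.2.1, h.2.2.2⟩⟩
  rw [h]
  refine (clopen_apply _).isClosed.inter ((isClosed_iInter fun u => isClosed_iInter fun w =>
    isClosed_iInter fun _ => closed_imp (clopen_apply w) (clopen_apply u).isClosed).inter
    ((isClosed_iInter fun w => closed_imp (q := fun _ => S.Leg S.root w) (clopen_apply w)
      isClosed_const).inter
    (isClosed_iInter fun u => isClosed_iInter fun w =>
      closed_imp (q := fun y : List S.E → Bool => y w = true → u <+: w ∨ w <+: u) (clopen_apply u)
      (closed_imp (q := fun _ => u <+: w ∨ w <+: u) (clopen_apply w) isClosed_const))))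

theorem pf_PCO : T_PCO := by
  intro G S
  have := S.cE
  have hc : IsCompact {y : List S.E → Bool | S.IsPath y} := (closed_path S).isCompact
  have h1 : CompactSpace {y : List S.E → Bool // S.IsPath y} := isCompact_iff_compactSpace.mp hc
  have h2 : T2Space {y : List S.E → Bool // S.IsPath y} := inferInstance
  have h3 : SecondCountableTopology {y : List S.E → Bool // S.IsPath y} :=
    TopologicalSpace.Subtype.secondCountableTopology _
  have h4 : TotallyDisconnectedSpace {y : List S.E → Bool // S.IsPath y} := inferInstance
  refine ⟨h1, h2, h3, h4, ?_, fun w => ?_⟩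
  · classical
    refine ⟨⟨fun w => decide (w = []), ?_⟩⟩
    constructor
    · simp
    · intro u w huw hw
      have hw' : w = [] := by simpa using hw
      subst hw'
      have : u = [] := by simpa using huw
      simp [this]
    · intro w hw
      have hw' : w = [] := by simpa using hw
      subst hw'
      trivial
    · intro u w hu hw
      have hu' : u = [] := by simpa using hu
      subst hu'
      exact Or.inl (List.nil_prefix)
  · have h5 : Continuous (fun y : {y : List S.E → Bool // S.IsPath y} => y.1) :=
      continuous_subtype_val
    exact (clopen_apply w).preimage h5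

end Pool.Agent.H34.CP
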